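import Pool.Agent.V11317.NC.Var
import Pool.Agent.V11298.KD.Cls
import Pool.Agent.Results.MP_6d896a_gt.SimultaneousConjugation
import Pool.Agent.Results.MP_6d896a_gt.TensorTuples

/-!
# The KLS conjecture in Cheeger form for bodies with many symmetries, without central symmetry

Q1 for all convex bodies `K ⊂ ℝ^n` which are invariant under the permutations of the coordinates, or under the
permutations of the particles of each of `q` species in `ℝ^d`, or under the automorphisms of a tree, and for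
convex bodies of tuples of Hermitian matrices invariant under simultaneous conjugation and of tuples of real matrices
and vectors invariant under simultaneous rotations; `K = -K` is not assumed (the starting results for the Cheeger
form treat the bodies `K = -K` of these classes only). Sets of
measure `1/2` (to which the infimum in the Cheeger constant may be restricted by a known theorem), Minkowski
boundary measure. More generally: for an arbitrary convex body `K` the variance form of the inequality (every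
function with `‖∇ f‖ ≤ 1` has variance at most `k s` if all variances of linear functionals of norm one are at most
`s`) gives the Cheeger form with the constant `c / √k`.

Method. (1) The halfspace inequality with the constant `t` bounds the variances of linear functionals of norm one
by `C / t²` (one dimensional marginals). (2) By the variance form every `1`-Lipschitz function has variance at most
`C k / t²`; a discrete heat flow for the densities `exp (- A/2 dist (x, K)²) / Z` turns this into the `L¹`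
inequality `Var f ≤ B ∫ ‖∇ f‖`, `B = 10 √(C k) / t`, for `|f| ≤ 1/2`, `Var f > 1/5` (modules `FF`, no symmetry of
`K` is needed there). (3) Approximation of indicator functions gives the Minkowski content of sets of measure `1/2`.
-/

set_option autoImplicit false

namespace Pool.Agent.Results.MP_8d00da_gt.WithoutCentralSymmetry

open MeasureTheory Set
open scoped ENNReal InnerProductSpace Matrix
open Pool.Agent.Results.MP_6d896a_gt

section defs

variable {κ : Type} [Fintype κ]

/-- convex body: compact, convex, with nonempty interior -/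
structure ConvexBody (K : Set (EuclideanSpace ℝ κ)) : Prop where
  conv : Convex ℝ K
  comp : IsCompact K
  int : (interior K).Nonempty

/-- Minkowski (exterior) boundary measure `μ⁺(A)` -/
noncomputable def bdry (μ : Measure (EuclideanSpace ℝ κ)) (A : Set (EuclideanSpace ℝ κ)) : ℝ≥0∞ :=
  Filter.liminf (fun ε : ℝ => (μ (Metric.thickening ε A) - μ A) / ENNReal.ofReal ε)
    (nhdsWithin 0 (Set.Ioi 0))

/-- the halfspace `⟪u, x⟫ ≤ b` -/
def halfspace (u : EuclideanSpace ℝ κ) (b : ℝ) : Set (EuclideanSpace ℝ κ) := {x | inner ℝ u x ≤ b}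

/-- the uniform probability measure on `K` -/
noncomputable def unif (K : Set (EuclideanSpace ℝ κ)) : Measure (EuclideanSpace ℝ κ) :=
  (volume K)⁻¹ • volume.restrict K

/-- the inequality of Kannan, Lovasz and Simonovits with constant `c` for the uniform measure `μ` on
`K` and sets of measure `1/2`: if `t min(μ H, 1 - μ H) ≤ μ⁺(H)` for all halfspaces `H` then
`c t / 2 ≤ μ⁺(A)` for all measurable `A` with `μ A = 1/2`. -/
def KLSBoundHalf (c : ℝ) (K : Set (EuclideanSpace ℝ κ)) : Prop :=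
  ∀ t : ℝ≥0∞, (∀ (u : EuclideanSpace ℝ κ) (b : ℝ), u ≠ 0 →
      t * min (unif K (halfspace u b)) (1 - unif K (halfspace u b)) ≤
        bdry (unif K) (halfspace u b)) →
    ∀ A : Set (EuclideanSpace ℝ κ), MeasurableSet A → unif K A = 1 / 2 →
      ENNReal.ofReal c * t * (1 / 2) ≤ bdry (unif K) A

/-- the variance form of the inequality for the uniform measure on `K`: if all linear functionals `⟪θ, x⟫` have
variance at most `s ‖θ‖²` then all `C¹` functions with `‖∇ f‖ ≤ 1` have variance at most `k s` -/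
def VarianceForm (k : ℝ) (K : Set (EuclideanSpace ℝ κ)) : Prop :=
  ∀ s : ℝ, 0 < s → (∀ θ : EuclideanSpace ℝ κ,
      ProbabilityTheory.evariance (fun x => ⟪θ, x⟫_ℝ) (unif K) ≤ ENNReal.ofReal (s * ‖θ‖ ^ 2)) →
    ∀ f : EuclideanSpace ℝ κ → ℝ, ContDiff ℝ 1 f → (∀ x, ‖fderiv ℝ f x‖ ≤ 1) →
      ProbabilityTheory.variance f (unif K) ≤ k * s

end defs

/-- `K` (a set of `q`-tuples of Hermitian matrices `X_j = Φ (comp j x)`) is invariant under the
simultaneous conjugations `X_j ↦ U X_j Uᴴ`, `j = 1, …, q`, for all unitary (orthogonal if `𝕜 = ℝ`)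
matrices `U`. -/
def ConjInvariant {𝕜 : Type} [RCLike 𝕜] {N q : ℕ} {ι : Type} [Fintype ι]
    (Φ : EuclideanSpace ℝ ι →ₗ[ℝ] Matrix (Fin N) (Fin N) 𝕜)
    (K : Set (EuclideanSpace ℝ (Fin q × ι))) : Prop :=
  ∀ U ∈ Matrix.unitaryGroup (Fin N) 𝕜, ∀ x y,
    (∀ j, Φ (SimultaneousConjugation.comp j y) = U * Φ (SimultaneousConjugation.comp j x) * Uᴴ) →
      x ∈ K → y ∈ K

/-- `K` (a set of elements of the subspace `ι(ℝ^κ)` of the space of tuples of `q` real `N × N` matrices and `m`
vectors of `ℝ^N`) is invariant under the rotations `X_j ↦ g X_j gᵀ`, `v_i ↦ g v_i`, `g ∈ SO(N)`. -/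
def RotInvariant {κ : Type} [Fintype κ] {q m N : ℕ}
    (ι : EuclideanSpace ℝ κ →ₗᵢ[ℝ] TensorTuples.Tup q m N) (K : Set (EuclideanSpace ℝ κ)) : Prop :=
  ∀ g : Matrix (Fin N) (Fin N) ℝ, TensorTuples.Rotation g → ∀ x y,
    TensorTuples.Rotated g (ι x) (ι y) → x ∈ K → y ∈ K

theorem varianceForm_conj : ∃ C : ℝ, 0 < C ∧ ∀ (𝕜 : Type) [RCLike 𝕜] (N q : ℕ), 3 ≤ N → 1 ≤ q →
    ∀ (ι : Type) [Fintype ι] (Φ : EuclideanSpace ℝ ι →ₗ[ℝ] Matrix (Fin N) (Fin N) 𝕜),
    SimultaneousConjugation.HermFrame Φ → ∀ K : Set (EuclideanSpace ℝ (Fin q × ι)), ConvexBody K →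
    ConjInvariant Φ K → VarianceForm (C * q ^ 4) K := by
  obtain ⟨C, hC, H⟩ := SimultaneousConjugation.result
  refine ⟨C, hC, ?_⟩
  intro 𝕜 _ N q hN hq ι _ Φ hΦ K hK hinv s hs hcov f hf hf1
  obtain ⟨ρ, h1, h2, h3⟩ := Pool.Agent.V11317.NC.unif_density K hK.comp hK.conv hK.int (unif K) rfl
  have hp := Pool.Agent.V11317.NC.prob K hK.comp hK.int (unif K) rfl
  have hρ : SimultaneousConjugation.InvDensity Φ ρ := by
    refine ⟨h1.meas, h1.nonneg, h1.logc, ?_⟩
    intro U hU x y hxy
    refine h3 _ _ ⟨fun hy => ?_, fun hx => hinv U hU x y hxy hx⟩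
    refine hinv Uᴴ (by
      have := Unitary.star_mem hU
      exact this) y x (fun j => ?_) hy
    rw [hxy j]
    have hUU : Uᴴ * U = 1 := Matrix.mem_unitaryGroup_iff'.1 hU
    rw [Matrix.conjTranspose_conjTranspose]
    calc Φ (SimultaneousConjugation.comp j x)
        = (Uᴴ * U) * Φ (SimultaneousConjugation.comp j x) * (Uᴴ * U) := by rw [hUU]; simp
      _ = Uᴴ * (U * Φ (SimultaneousConjugation.comp j x) * Uᴴ) * U := by simp only [Matrix.mul_assoc]
  have hm := Pool.Agent.V11317.NC.memLp_lin K hK.comp hK.int (unif K) rfl f hf.continuous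
  have h4 := H 𝕜 N q hN hq ι Φ hΦ ρ hρ (unif K) h2.symm hp s hs hcov f hf hm
  exact Pool.Agent.V11317.NC.var_of_poincare (unif K) hp f _ (by positivity) hf1 h4

theorem varianceForm_rot : ∃ C : ℝ, 0 < C ∧ ∀ q m N : ℕ, 3 ≤ N → ∀ (κ : Type) [Fintype κ]
    (ι : EuclideanSpace ℝ κ →ₗᵢ[ℝ] TensorTuples.Tup q m N), TensorTuples.InvSubspace ι →
    ∀ K : Set (EuclideanSpace ℝ κ), ConvexBody K → RotInvariant ι K →
    VarianceForm (C * ((q + 1) ^ 2 * (1 + (q + m) / N) ^ 2)) K := by
  obtain ⟨C, hC, H⟩ := TensorTuples.result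
  refine ⟨C, hC, ?_⟩
  intro q m N hN κ _ ι hι K hK hinv s hs hcov f hf hf1
  obtain ⟨ρ, h1, h2, h3⟩ := Pool.Agent.V11317.NC.unif_density K hK.comp hK.conv hK.int (unif K) rfl
  have hp := Pool.Agent.V11317.NC.prob K hK.comp hK.int (unif K) rfl
  have hρ : TensorTuples.InvDensity ι ρ := by
    refine ⟨h1.meas, h1.nonneg, h1.logc, ?_⟩
    intro g hg x y hxy
    refine h3 _ _ ⟨fun hy => ?_, fun hx => hinv g hg x y hxy hx⟩
    have hgg : gᵀ * g = 1 := mul_eq_one_comm.1 hg.1
    refine hinv gᵀ ⟨by rw [Matrix.transpose_transpose]; exact hgg, by rw [Matrix.det_transpose]; exact hg.2⟩ y x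
      ⟨fun j => ?_, fun i => ?_⟩ hy
    · rw [hxy.1 j, Matrix.transpose_transpose]
      calc TensorTuples.mat j (ι x) = (gᵀ * g) * TensorTuples.mat j (ι x) * (gᵀ * g) := by rw [hgg]; simp
        _ = gᵀ * (g * TensorTuples.mat j (ι x) * gᵀ) * g := by simp only [Matrix.mul_assoc]
    · rw [hxy.2 i, Matrix.mulVec_mulVec, hgg, Matrix.one_mulVec]
  have hm := Pool.Agent.V11317.NC.memLp_lin K hK.comp hK.int (unif K) rfl f hf.continuous
  have h4 := H q m N hN κ ι hι ρ hρ (unif K) h2.symm hp s hs hcov f hf hm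
  exact Pool.Agent.V11317.NC.var_of_poincare (unif K) hp f _ (by positivity) hf1 h4

/-- **KLS (Cheeger form) without central symmetry.** There are absolute constants `c, C > 0` such that
(1) every convex body `K` in `ℝ^κ` (`κ` finite) which satisfies the variance form with the constant `k > 0`
satisfies the Cheeger form with the constant `c / √k`, for sets of measure `1/2`;
(2) every convex body in `ℝ^n`, `n ≥ 1`, which is invariant under permutations of the coordinates satisfies it with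
the constant `c`;
(3) every convex body of configurations of `N` particles in `ℝ^d` which is invariant under permutations of the
particles within their species (`q` species) satisfies it with the constant `c / √(q d⁴ (1 + log q)²)`;
(4) every convex body of functions on the leaves of a tree (depth `k`, every node of level `j` has `m_j` children)
which is invariant under the automorphisms of the tree satisfies it with the constant
`c / √(C^(k²) (∏_j (1 + log N_j / m_j)²))`, `N_j = m_0 ⋯ m_{j-1}`;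
(5) every convex body of `q`-tuples of real symmetric or complex Hermitian `N × N` matrices, `3 ≤ N`, which is
invariant under simultaneous conjugation by orthogonal resp. unitary matrices satisfies it with the constant
`c / q²`;
(6) every convex body of tuples of `q` real `N × N` matrices and `m` vectors of `ℝ^N`, `3 ≤ N` (or in a rotation
invariant subspace of the space of these tuples) which is invariant under simultaneous rotations satisfies it with
the constant `c / ((q + 1) (1 + (q + m) / N))`. -/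
theorem result : ∃ c C : ℝ, 0 < c ∧ 0 < C ∧
    (∀ (κ : Type) [Fintype κ] (K : Set (EuclideanSpace ℝ κ)), ConvexBody K →
      ∀ k : ℝ, 0 < k → VarianceForm k K → KLSBoundHalf (c / Real.sqrt k) K) ∧
    (∀ n : ℕ, 1 ≤ n → ∀ K : Set (EuclideanSpace ℝ (Fin n)), ConvexBody K →
      (∀ σ : Equiv.Perm (Fin n), ∀ x y : EuclideanSpace ℝ (Fin n), (∀ i, y i = x (σ i)) → x ∈ K → y ∈ K) →
      KLSBoundHalf c K) ∧
    (∀ N d q : ℕ, 1 ≤ N → 1 ≤ d → ∀ b : Fin N → Fin q, Function.Surjective b →
      ∀ K : Set (EuclideanSpace ℝ (Fin N × Fin d)), ConvexBody K →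
      (∀ σ : Equiv.Perm (Fin N), (∀ i, b (σ i) = b i) → ∀ x y : EuclideanSpace ℝ (Fin N × Fin d),
        (∀ i α, y (i, α) = x (σ i, α)) → x ∈ K → y ∈ K) →
      KLSBoundHalf (c / Real.sqrt (q * (d : ℝ) ^ 4 * (1 + Real.log q) ^ 2)) K) ∧
    (∀ (k : ℕ) (m : Fin k → ℕ), 1 ≤ k → (∀ j, 1 ≤ m j) →
      ∀ K : Set (EuclideanSpace ℝ ((j : Fin k) → Fin (m j))), ConvexBody K →
      (∀ ψ : Equiv.Perm ((j : Fin k) → Fin (m j)),
        (∀ (l : ℕ) (x y : (j : Fin k) → Fin (m j)), (∀ j : Fin k, j.val < l → x j = y j) ↔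
          (∀ j : Fin k, j.val < l → ψ x j = ψ y j)) →
        ∀ x y : EuclideanSpace ℝ ((j : Fin k) → Fin (m j)), (∀ p, y p = x (ψ p)) → x ∈ K → y ∈ K) →
      KLSBoundHalf (c / Real.sqrt (C ^ (k ^ 2) * ∏ j, (1 + Real.log (∏ i ∈ Finset.univ.filter
        (fun i => i < j), (m i : ℝ)) / m j) ^ 2)) K) ∧
    (∀ (𝕜 : Type) [RCLike 𝕜] (N q : ℕ), 3 ≤ N → 1 ≤ q →
      ∀ (ι : Type) [Fintype ι] (Φ : EuclideanSpace ℝ ι →ₗ[ℝ] Matrix (Fin N) (Fin N) 𝕜),
      SimultaneousConjugation.HermFrame Φ → ∀ K : Set (EuclideanSpace ℝ (Fin q × ι)), ConvexBody K →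
      ConjInvariant Φ K → KLSBoundHalf (c / q ^ 2) K) ∧
    (∀ q m N : ℕ, 3 ≤ N → ∀ (κ : Type) [Fintype κ]
      (ι : EuclideanSpace ℝ κ →ₗᵢ[ℝ] TensorTuples.Tup q m N), TensorTuples.InvSubspace ι →
      ∀ K : Set (EuclideanSpace ℝ κ), ConvexBody K → RotInvariant ι K →
      KLSBoundHalf (c / ((q + 1) * (1 + (q + m) / N))) K) := by
  obtain ⟨c₀, hc₀, H₀⟩ := Pool.Agent.V11317.NC.cheeger_var
  obtain ⟨c₁, hc₁, H⟩ := Pool.Agent.V11317.NC.cheeger_of_sym
  obtain ⟨C₁, hC₁, H₁⟩ := Pool.Agent.V11298.KD.sym_exch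
  obtain ⟨C₂, hC₂, H₂⟩ := Pool.Agent.V11298.KD.sym_part
  obtain ⟨C₃, hC₃, H₃⟩ := Pool.Agent.V11298.KD.sym_tree
  obtain ⟨C₄, hC₄, H₄⟩ := varianceForm_conj
  obtain ⟨C₅, hC₅, H₅⟩ := varianceForm_rot
  have base' : ∀ (κ : Type) [Fintype κ] (K : Set (EuclideanSpace ℝ κ)), ConvexBody K →
      ∀ k : ℝ, 0 < k → VarianceForm k K → KLSBoundHalf (c₀ / Real.sqrt k) K := by
    intro κ _ K hK k hk hv t ht A _ hA
    refine H₀ κ K hK.comp hK.conv hK.int (unif K) rfl k hk ?_ t ht A hA
    intro s hs hcov f hf hf1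
    exact ⟨Pool.Agent.V11317.NC.memLp_lin K hK.comp hK.int (unif K) rfl f hf.continuous,
      hv s hs hcov f hf hf1⟩
  have base : ∀ (κ : Type) [Fintype κ] (K : Set (EuclideanSpace ℝ κ)), ConvexBody K →
      ∀ k : ℝ, 0 < k → Pool.Agent.V11298.KD.SymKLS K k → KLSBoundHalf (c₁ / Real.sqrt k) K := by
    intro κ _ K hK k hk hS t ht A _ hA
    exact H κ K hK.comp hK.conv hK.int (unif K) rfl k hk hS t ht A hA
  have mono : ∀ {κ : Type} [Fintype κ] {K : Set (EuclideanSpace ℝ κ)} {c c' : ℝ}, c ≤ c' →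
      KLSBoundHalf c' K → KLSBoundHalf c K := by
    intro κ _ K c c' hcc h t ht A hA hA2
    refine le_trans ?_ (h t ht A hA hA2)
    gcongr
  obtain ⟨c, hc⟩ : ∃ c : ℝ, c = min (min (c₀ / Real.sqrt C₄) (c₀ / Real.sqrt C₅))
      (min c₀ (min c₁ (min (c₁ / Real.sqrt C₁) (c₁ / Real.sqrt C₂)))) := ⟨_, rfl⟩
  have e4 : c ≤ c₀ / Real.sqrt C₄ := by rw [hc]; exact (min_le_left _ _).trans (min_le_left _ _)
  have e5 : c ≤ c₀ / Real.sqrt C₅ := by rw [hc]; exact (min_le_left _ _).trans (min_le_right _ _)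
  have e' : c ≤ min c₀ (min c₁ (min (c₁ / Real.sqrt C₁) (c₁ / Real.sqrt C₂))) := by
    rw [hc]; exact min_le_right _ _
  have e0 : c ≤ c₀ := e'.trans (min_le_left _ _)
  have e1 : c ≤ c₁ := e'.trans ((min_le_right _ _).trans (min_le_left _ _))
  have e2 : c ≤ c₁ / Real.sqrt C₁ :=
    e'.trans (((min_le_right _ _).trans (min_le_right _ _)).trans (min_le_left _ _))
  have e3 : c ≤ c₁ / Real.sqrt C₂ :=
    e'.trans (((min_le_right _ _).trans (min_le_right _ _)).trans (min_le_right _ _))
  have hcp : 0 < c := by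
    rw [hc]
    exact lt_min (lt_min (by positivity) (by positivity))
      (lt_min hc₀ (lt_min hc₁ (lt_min (by positivity) (by positivity))))
  refine ⟨c, C₃, hcp, hC₃, ?_, ?_, ?_, ?_, ?_, ?_⟩
  · intro κ _ K hK k hk hv
    exact mono (div_le_div_of_nonneg_right e0 (Real.sqrt_nonneg _)) (base' κ K hK k hk hv)
  · intro n hn K hK hinv
    exact mono e2 (base (Fin n) K hK C₁ hC₁ (H₁ n hn K hinv))
  · intro N d q hN hd b hb K hK hinv
    have hq : 1 ≤ q := by
      have h1 : 0 < q := Fin.pos (b ⟨0, hN⟩)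
      exact h1
    have hlog : 0 ≤ Real.log q := Real.log_nonneg (by exact_mod_cast hq)
    have hq0 : (0 : ℝ) < q := by exact_mod_cast hq
    have hd0 : (0 : ℝ) < d := by exact_mod_cast hd
    have h1 := base (Fin N × Fin d) K hK (C₂ * (q * (d : ℝ) ^ 4 * (1 + Real.log q) ^ 2)) (by positivity)
      (H₂ N d q hN hd b hb K hinv)
    rw [Real.sqrt_mul hC₂.le, ← div_div] at h1
    exact mono (div_le_div_of_nonneg_right e3 (Real.sqrt_nonneg _)) h1
  · intro k m hk hm K hK hinv
    have hfac : 0 < ∏ j : Fin k, (1 + Real.log (∏ i ∈ Finset.univ.filter (fun i => i < j), (m i : ℝ)) / m j) ^ 2 := by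
      refine Finset.prod_pos fun j _ => ?_
      have h1 : 0 ≤ Real.log (∏ i ∈ Finset.univ.filter (fun i => i < j), (m i : ℝ)) / m j := by
        refine div_nonneg (Real.log_nonneg ?_) (Nat.cast_nonneg _)
        refine Finset.prod_induction _ (fun x : ℝ => 1 ≤ x)
          (fun a b ha hb => one_le_mul_of_one_le_of_one_le ha hb) le_rfl fun i _ => ?_
        exact_mod_cast hm i
      positivity
    have h1 := base _ K hK _ (mul_pos (pow_pos hC₃ (k ^ 2)) hfac) (H₃ k m hk hm K hinv)
    exact mono (div_le_div_of_nonneg_right e1 (Real.sqrt_nonneg _)) h1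
  · intro 𝕜 _ N q hN hq ι _ Φ hΦ K hK hinv
    have hq0 : (0 : ℝ) < q := by exact_mod_cast hq
    have h1 := base' _ K hK (C₄ * (q : ℝ) ^ 4) (by positivity) (H₄ 𝕜 N q hN hq ι Φ hΦ K hK hinv)
    have h2 : Real.sqrt (C₄ * (q : ℝ) ^ 4) = Real.sqrt C₄ * (q : ℝ) ^ 2 := by
      rw [Real.sqrt_mul hC₄.le, show (q : ℝ) ^ 4 = ((q : ℝ) ^ 2) ^ 2 by ring, Real.sqrt_sq (by positivity)]
    rw [h2, ← div_div] at h1
    exact mono (div_le_div_of_nonneg_right e4 (by positivity)) h1
  · intro q m N hN κ _ ι hι K hK hinv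
    have h1 := base' _ K hK (C₅ * (((q : ℝ) + 1) ^ 2 * (1 + (q + m) / N) ^ 2)) (by positivity)
      (H₅ q m N hN κ ι hι K hK hinv)
    have h2 : Real.sqrt (C₅ * (((q : ℝ) + 1) ^ 2 * (1 + (q + m) / N) ^ 2)) =
        Real.sqrt C₅ * (((q : ℝ) + 1) * (1 + (q + m) / N)) := by
      rw [Real.sqrt_mul hC₅.le, ← mul_pow, Real.sqrt_sq (by positivity)]
    rw [h2, ← div_div] at h1
    exact mono (div_le_div_of_nonneg_right e5 (by positivity)) h1

end Pool.Agent.Results.MP_8d00da_gt.WithoutCentralSymmetry
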