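import Pool.Agent.Results.MP_6d896a_gt.DirectSums
import Pool.Agent.Results.MP_8d00da_gt.WithoutCentralSymmetry

/-!
# The KLS conjecture in Cheeger form for direct sums of bodies which satisfy KLS

Let `ℝ^n = ⊕_j ℝ^(n_j)`, `j = 1, …, q`, and let `B_j ⊂ ℝ^(n_j)` be bodies with the barycentre at the origin which satisfy
the variance form of KLS. Then Q1 holds with a constant which depends only on `q` (and on the constant of the `B_j`)
for all convex bodies `K ⊂ ℝ^n` such that every nonempty section of `K` parallel to `ℝ^(n_j)` is a multiple of `B_j`,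
for every `j`, such as the `ψ`-direct sums `{x : ψ(‖x_1‖, …, ‖x_q‖) ≤ 1}` (where `‖·‖` is the gauge of `B_j`), for example
the `ℓ_p` sums. No symmetry of `K` is assumed. Sets of measure `1/2` (to which the infimum in the Cheeger constant may be
restricted by a known theorem), Minkowski boundary measure.

Method: the theorem of `MP_6d896a_gt.DirectSums` for the variance form, and `MP_8d00da_gt.WithoutCentralSymmetry` for
the passage to the Cheeger form.
-/

set_option autoImplicit false

namespace Pool.Agent.Results.MP_8d00da_gt.DirectSumsCheeger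

open MeasureTheory Set
open scoped ENNReal InnerProductSpace
open Pool.Agent.Results.MP_6d896a_gt.DirectSums (Centred LargeInInvariant IsDirectSum Psi part)
open WithoutCentralSymmetry (ConvexBody KLSBoundHalf VarianceForm unif)

/-- **KLS (Cheeger form) for direct sums of bodies which satisfy KLS.** There is an absolute constant `c > 0` such
that the following holds. Let the coordinates of `ℝ^κ` be divided into `q = |J|` nonempty blocks, let `B j`, `j ∈ J`,
be compact sets with nonempty interior in the blocks, with the barycentre at the origin, and let `K ⊂ ℝ^κ` be a convex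
body, all of whose nonempty sections parallel to the block `j` are multiples of `B j`, for every `j`.
(1) If the `B j` satisfy the variance form with the constant `k ≥ 0`, then `K` satisfies the Cheeger form with the
constant `c / √(q (k + q))`.
(2) If every `B j` is contained in a bounded measurable convex set `B' j`, invariant under the permutations of the
coordinates in the block, with `|B' j| ≤ M |B j|`, `M ≥ 1`, then `K` satisfies the Cheeger form with the constant
`c / √(q (M³ + q))`.
(3) For every `ψ` as in `Psi` the set of the `x` such that `ψ (‖x_1‖, …, ‖x_q‖) ≤ 1`, where `‖·‖` is the gauge of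
`B j`, is such a body `K`, if the `B j` are convex and contain the origin in the interior. -/
theorem result : ∃ c : ℝ, 0 < c ∧
    (∀ (κ J : Type) [Fintype κ] [Fintype J] [Nonempty J] [DecidableEq J] (c' : κ → J),
      Function.Surjective c' → ∀ B : ∀ j, Set (EuclideanSpace ℝ {i // c' i = j}), (∀ j, Centred (B j)) →
      ∀ k : ℝ, 0 ≤ k → (∀ j, VarianceForm k (B j)) →
      ∀ K : Set (EuclideanSpace ℝ κ), IsDirectSum c' B K →
      KLSBoundHalf (c / Real.sqrt (Fintype.card J * (k + Fintype.card J))) K) ∧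
    (∀ (κ J : Type) [Fintype κ] [Fintype J] [Nonempty J] [DecidableEq J] (c' : κ → J),
      Function.Surjective c' → ∀ B : ∀ j, Set (EuclideanSpace ℝ {i // c' i = j}), (∀ j, Centred (B j)) →
      ∀ M : ℝ, (∀ j, LargeInInvariant (B j) M) →
      ∀ K : Set (EuclideanSpace ℝ κ), IsDirectSum c' B K →
      KLSBoundHalf (c / Real.sqrt (Fintype.card J * (M ^ 3 + Fintype.card J))) K) ∧
    (∀ (κ J : Type) [Fintype κ] [DecidableEq J] (c' : κ → J)
      (B : ∀ j, Set (EuclideanSpace ℝ {i // c' i = j})), (∀ j, Centred (B j)) → (∀ j, Convex ℝ (B j)) →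
      (∀ j, 0 ∈ interior (B j)) → ∀ ψ : (J → ℝ) → ℝ, Psi ψ →
      IsDirectSum c' B {x | ψ (fun j => gauge (B j) (part c' j x)) ≤ 1}) := by
  obtain ⟨c₀, C₀, hc₀, -, H₀, -⟩ := WithoutCentralSymmetry.result
  obtain ⟨T1, T2, C, hC, T3⟩ := Pool.Agent.Results.MP_6d896a_gt.DirectSums.result
  have mono : ∀ {κ : Type} [Fintype κ] {K : Set (EuclideanSpace ℝ κ)} {c c' : ℝ}, c ≤ c' →
      KLSBoundHalf c' K → KLSBoundHalf c K := by
    intro κ _ K c c' hcc h t ht A hA hA2
    refine le_trans ?_ (h t ht A hA hA2)
    gcongr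
  have conv1 : ∀ {κ : Type} [Fintype κ] (B : Set (EuclideanSpace ℝ κ)) (_ : IsCompact B)
      (_ : (interior B).Nonempty) (k : ℝ), VarianceForm k B →
      Pool.Agent.Results.MP_6d896a_gt.LargeSubsets.KLS
        (Pool.Agent.Results.MP_6d896a_gt.LargeSubsets.unif B) k := by
    intro κ _ B hB hBi k h s hs hcov f hf hf1
    exact ⟨Pool.Agent.V11317.NC.memLp_lin B hB hBi _ rfl f hf.continuous, h s hs hcov f hf hf1⟩
  have conv2 : ∀ {κ : Type} [Fintype κ] (K : Set (EuclideanSpace ℝ κ)) (k : ℝ),
      Pool.Agent.Results.MP_6d896a_gt.LargeSubsets.KLS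
        (Pool.Agent.Results.MP_6d896a_gt.LargeSubsets.unif K) k → VarianceForm k K := by
    intro κ _ K k h s hs hcov f hf hf1
    exact (h s hs hcov f hf hf1).2
  have comp : ∀ (x y L : ℝ), 0 < x → 0 < L → 0 < y → x ≤ L * y →
      c₀ / Real.sqrt L / Real.sqrt y ≤ c₀ / Real.sqrt x := by
    intro x y L hx hL hy hxy
    rw [div_div, ← Real.sqrt_mul hL.le]
    exact div_le_div_of_nonneg_left hc₀.le (Real.sqrt_pos.2 hx) (Real.sqrt_le_sqrt hxy)
  obtain ⟨L, hLd⟩ : ∃ L : ℝ, L = max 12 C := ⟨_, rfl⟩
  have hL3 : 12 ≤ L := by rw [hLd]; exact le_max_left _ _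
  have hLC : C ≤ L := by rw [hLd]; exact le_max_right _ _
  have hL0 : 0 < L := by linarith
  refine ⟨c₀ / Real.sqrt L, div_pos hc₀ (Real.sqrt_pos.2 hL0), ?_, ?_, T2⟩
  · intro κ J _ _ _ _ c' hc' B hB k hk hv K hK
    have h1 := conv2 K _ (T1 κ J c' hc' B hB k hk
      (fun j => conv1 (B j) (hB j).compact (hB j).int k (hv j)) K hK)
    have hq : (1 : ℝ) ≤ Fintype.card J := by
      have : 1 ≤ Fintype.card J := Fintype.card_pos
      exact_mod_cast this
    refine mono (comp _ _ L (by positivity) hL0 (by positivity) ?_)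
      (H₀ _ K ⟨hK.conv, hK.compact, hK.int⟩ _ (by positivity) h1)
    obtain ⟨q, hq'⟩ : ∃ q : ℝ, q = Fintype.card J := ⟨_, rfl⟩
    rw [← hq'] at hq ⊢
    have e1 : 12 * (q * (k + q)) ≤ L * (q * (k + q)) := mul_le_mul_of_nonneg_right hL3 (by positivity)
    refine le_trans ?_ e1
    have e2 : 3 * q * (k + 2 * q + 2) ≤ 3 * q * (4 * (k + q)) :=
      mul_le_mul_of_nonneg_left (by linarith) (by positivity)
    linarith
  · intro κ J _ _ _ _ c' hc' B hB M hM K hK
    have hM1 : 1 ≤ M := (hM (Classical.arbitrary J)).1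
    have h1 := conv2 K _ (T3 κ J c' hc' B hB M hM K hK)
    have hq : (1 : ℝ) ≤ Fintype.card J := by
      have : 1 ≤ Fintype.card J := Fintype.card_pos
      exact_mod_cast this
    refine mono (comp _ _ L (by positivity) hL0 (by positivity) ?_)
      (H₀ _ K ⟨hK.conv, hK.compact, hK.int⟩ _ (by positivity) h1)
    obtain ⟨q, hq'⟩ : ∃ q : ℝ, q = Fintype.card J := ⟨_, rfl⟩
    rw [← hq'] at hq ⊢
    have e1 : C * (q * (M ^ 3 + q)) ≤ L * (q * (M ^ 3 + q)) := mul_le_mul_of_nonneg_right hLC (by positivity)
    linarith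

end Pool.Agent.Results.MP_8d00da_gt.DirectSumsCheeger
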