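import Pool.Agent.V11298.KD.Cls

/-!
# The KLS conjecture in Cheeger form for large convex subsets of convex bodies with symmetries

Q1 for convex bodies `K = -K` which need have no symmetry other than `x ↦ -x` but are contained in a convex body
`K'` of volume at most `M |K|` which has many symmetries (invariant under permutations of the coordinates, or under
permutations of the particles of each of `q` species in `ℝ^d`, or under the automorphisms of a tree), for sets of
measure `1/2` (to which the infimum in the Cheeger constant may be restricted by a known theorem). Minkowski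
boundary measure. For example this holds for the intersection of a permutation invariant body with any number of
symmetric slabs, as long as half of the volume is left.

Method. (1) If `ν ≤ M μ` with `μ` log-concave then a bound `s` for the variances of all linear functionals of norm
one under `ν` gives `114 M² s` under `μ` (a slab of large measure forces exponential tails, by Prekopa-Leindler), so
the variance of every `1`-Lipschitz function under `ν` is at most `114 k M³ s` if `μ` satisfies the variance form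
of KLS with the constant `k`. (2) This is applied to the densities `exp (- A/2 dist (x, K)²) / Z`, which are
dominated by `2 M` times those of `K'` for large `A`. (3) A discrete heat flow turns the bound for the variances of
Lipschitz functions into the `L¹` inequality (`(∫ f²)³ ≤ 16 D (∫ ‖∇ f‖)²` for `∫ f = 0`, `|f| ≤ 1`).
-/

set_option autoImplicit false

namespace Pool.Agent.Results.MP_8d00da_gt.LargeSubsetsCheeger

open MeasureTheory Set
open Pool.Agent.V11298.KD
open scoped ENNReal InnerProductSpace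

section defs

variable {κ : Type} [Fintype κ]

/-- convex body: compact, convex, with nonempty interior -/
structure ConvexBody (K : Set (EuclideanSpace ℝ κ)) : Prop where
  conv : Convex ℝ K
  comp : IsCompact K
  int : (interior K).Nonempty

/-- Minkowski (exterior) boundary measure `μ⁺(A)` -/
noncomputable def bdry (μ : Measure (EuclideanSpace ℝ κ)) (A : Set (EuclideanSpace ℝ κ)) : ℝ≥0∞ :=
  Filter.liminf (fun ε : ℝ => (μ (Metric.thickening ε A) - μ A) / ENNReal.ofReal ε)
    (nhdsWithin 0 (Set.Ioi 0))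

/-- the halfspace `⟪u, x⟫ ≤ b` -/
def halfspace (u : EuclideanSpace ℝ κ) (b : ℝ) : Set (EuclideanSpace ℝ κ) := {x | inner ℝ u x ≤ b}

/-- the uniform probability measure on `K` -/
noncomputable def unif (K : Set (EuclideanSpace ℝ κ)) : Measure (EuclideanSpace ℝ κ) :=
  (volume K)⁻¹ • volume.restrict K

/-- the inequality of Kannan, Lovasz and Simonovits with constant `c` for the uniform measure `μ` on
`K` and sets of measure `1/2`: if `t min(μ H, 1 - μ H) ≤ μ⁺(H)` for all halfspaces `H` then
`c t / 2 ≤ μ⁺(A)` for all measurable `A` with `μ A = 1/2`. -/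
def KLSBoundHalf (c : ℝ) (K : Set (EuclideanSpace ℝ κ)) : Prop :=
  ∀ t : ℝ≥0∞, (∀ (u : EuclideanSpace ℝ κ) (b : ℝ), u ≠ 0 →
      t * min (unif K (halfspace u b)) (1 - unif K (halfspace u b)) ≤
        bdry (unif K) (halfspace u b)) →
    ∀ A : Set (EuclideanSpace ℝ κ), MeasurableSet A → unif K A = 1 / 2 →
      ENNReal.ofReal c * t * (1 / 2) ≤ bdry (unif K) A

/-- `K = -K` is a convex body contained in the convex body `K'` and `|K'| ≤ M |K|` -/
structure LargeIn (K K' : Set (EuclideanSpace ℝ κ)) (M : ℝ) : Prop where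
  body : ConvexBody K
  symm : ∀ x ∈ K, -x ∈ K
  body' : ConvexBody K'
  sub : K ⊆ K'
  one_le : 1 ≤ M
  vol : volume K' ≤ ENNReal.ofReal M * volume K

end defs

/-- **KLS (Cheeger form) for large subsets of convex bodies with symmetries.** There is an absolute constant `c > 0`
such that for all convex bodies `K = -K ⊆ K'` in `ℝ^κ` (`κ` finite and nonempty) with `|K'| ≤ M |K|`, `M ≥ 1`:
(1) if every log-concave probability measure invariant under all linear isometries which preserve `K'` satisfies
the variance form of KLS with the constant `k > 0` (`SymKLS K' k`), then `K` satisfies the Cheeger form with the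
constant `c / √(k M³)`, for sets of measure `1/2`;
(2) if `κ = {1, …, n}` and `K'` is invariant under permutations of the coordinates, then `K` satisfies it with the
constant `c / √(M³)`;
(3) if `K'` is a set of configurations of `N` particles in `ℝ^d` invariant under permutations of the particles
within their species (`q` species), then with the constant `c / √(q d⁴ (1 + log q)² M³)`;
(4) if `K'` is a set of functions on the leaves of a tree (depth `k`, every node of level `j` has `m_j` children)
invariant under the automorphisms of the tree, then with the constant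
`c / √(C^(k²) (∏_j (1 + log N_j / m_j)²) M³)`, `C` an absolute constant, `N_j = m_0 ⋯ m_{j-1}`. -/
theorem result : ∃ c C : ℝ, 0 < c ∧ 0 < C ∧
    (∀ (κ : Type) [Fintype κ] [Nonempty κ] (K K' : Set (EuclideanSpace ℝ κ)) (M : ℝ), LargeIn K K' M →
      ∀ k : ℝ, 0 < k → SymKLS K' k → KLSBoundHalf (c / Real.sqrt (k * M ^ 3)) K) ∧
    (∀ n : ℕ, 1 ≤ n → ∀ (K K' : Set (EuclideanSpace ℝ (Fin n))) (M : ℝ), LargeIn K K' M →
      (∀ σ : Equiv.Perm (Fin n), ∀ x y : EuclideanSpace ℝ (Fin n), (∀ i, y i = x (σ i)) → x ∈ K' → y ∈ K') →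
      KLSBoundHalf (c / Real.sqrt (M ^ 3)) K) ∧
    (∀ N d q : ℕ, 1 ≤ N → 1 ≤ d → ∀ b : Fin N → Fin q, Function.Surjective b →
      ∀ (K K' : Set (EuclideanSpace ℝ (Fin N × Fin d))) (M : ℝ), LargeIn K K' M →
      (∀ σ : Equiv.Perm (Fin N), (∀ i, b (σ i) = b i) → ∀ x y : EuclideanSpace ℝ (Fin N × Fin d),
        (∀ i α, y (i, α) = x (σ i, α)) → x ∈ K' → y ∈ K') →
      KLSBoundHalf (c / Real.sqrt ((q * (d : ℝ) ^ 4 * (1 + Real.log q) ^ 2) * M ^ 3)) K) ∧
    (∀ (k : ℕ) (m : Fin k → ℕ), 1 ≤ k → (∀ j, 1 ≤ m j) →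
      ∀ (K K' : Set (EuclideanSpace ℝ ((j : Fin k) → Fin (m j)))) (M : ℝ), LargeIn K K' M →
      (∀ ψ : Equiv.Perm ((j : Fin k) → Fin (m j)),
        (∀ (l : ℕ) (x y : (j : Fin k) → Fin (m j)), (∀ j : Fin k, j.val < l → x j = y j) ↔
          (∀ j : Fin k, j.val < l → ψ x j = ψ y j)) →
        ∀ x y : EuclideanSpace ℝ ((j : Fin k) → Fin (m j)), (∀ p, y p = x (ψ p)) → x ∈ K' → y ∈ K') →
      KLSBoundHalf (c / Real.sqrt ((C ^ (k ^ 2) * ∏ j, (1 + Real.log (∏ i ∈ Finset.univ.filter
        (fun i => i < j), (m i : ℝ)) / m j) ^ 2) * M ^ 3)) K) := by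
  obtain ⟨c₀, hc₀, H⟩ := cheeger_sym
  obtain ⟨C₁, hC₁, H₁⟩ := sym_exch
  obtain ⟨C₂, hC₂, H₂⟩ := sym_part
  obtain ⟨C₃, hC₃, H₃⟩ := sym_tree
  have base : ∀ (κ : Type) [Fintype κ] [Nonempty κ] (K K' : Set (EuclideanSpace ℝ κ)) (M : ℝ), LargeIn K K' M →
      ∀ k : ℝ, 0 < k → SymKLS K' k → KLSBoundHalf (c₀ / Real.sqrt (k * M ^ 3)) K := by
    intro κ _ _ K K' M hL k hk hS t ht A _ hA2
    have h1 : ENNReal.ofReal (c₀ / Real.sqrt (k * M ^ 3)) * t * min (unif K A) (1 - unif K A) ≤
        bdry (unif K) A := H κ K K' hL.body.conv hL.body.comp hL.body.int hL.symm hL.body'.conv hL.body'.comp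
      hL.sub M hL.one_le hL.vol k hk hS (unif K) rfl t ht A hA2
    have h2 : min (1 / 2 : ℝ≥0∞) (1 - 1 / 2) = 1 / 2 := by
      have : (1 : ℝ≥0∞) - 1 / 2 = 1 / 2 := by
        rw [one_div]
        exact ENNReal.one_sub_inv_two
      rw [this, min_self]
    have h3 : min (unif K A) (1 - unif K A) = 1 / 2 := by rw [hA2, h2]
    rw [h3] at h1
    exact h1
  have mono : ∀ {κ : Type} [Fintype κ] {K : Set (EuclideanSpace ℝ κ)} {c c' : ℝ}, c ≤ c' →
      KLSBoundHalf c' K → KLSBoundHalf c K := by
    intro κ _ K c c' hcc h t ht A hA hA2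
    refine le_trans ?_ (h t ht A hA hA2)
    gcongr
  set c : ℝ := min c₀ (min (c₀ / Real.sqrt C₁) (c₀ / Real.sqrt C₂)) with hc
  have e0 : c ≤ c₀ := min_le_left _ _
  have e1 : c ≤ c₀ / Real.sqrt C₁ := (min_le_right _ _).trans (min_le_left _ _)
  have e2 : c ≤ c₀ / Real.sqrt C₂ := (min_le_right _ _).trans (min_le_right _ _)
  have hcp : 0 < c := lt_min hc₀ (lt_min (by positivity) (by positivity))
  refine ⟨c, C₃, hcp, hC₃, ?_, ?_, ?_, ?_⟩
  · intro κ _ _ K K' M hL k hk hS
    exact mono (div_le_div_of_nonneg_right e0 (Real.sqrt_nonneg _)) (base κ K K' M hL k hk hS)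
  · intro n hn K K' M hL hinv
    have hne : Nonempty (Fin n) := ⟨⟨0, hn⟩⟩
    have h1 := base (Fin n) K K' M hL C₁ hC₁ (H₁ n hn K' hinv)
    rw [Real.sqrt_mul hC₁.le, ← div_div] at h1
    exact mono (div_le_div_of_nonneg_right e1 (Real.sqrt_nonneg _)) h1
  · intro N d q hN hd b hb K K' M hL hinv
    have hne : Nonempty (Fin N × Fin d) := ⟨(⟨0, hN⟩, ⟨0, hd⟩)⟩
    have hq : 1 ≤ q := by
      have h1 : 0 < q := Fin.pos (b ⟨0, hN⟩)
      exact h1
    have hlog : 0 ≤ Real.log q := Real.log_nonneg (by exact_mod_cast hq)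
    have hq0 : (0 : ℝ) < q := by exact_mod_cast hq
    have hd0 : (0 : ℝ) < d := by exact_mod_cast hd
    have h1 := base (Fin N × Fin d) K K' M hL (C₂ * (q * (d : ℝ) ^ 4 * (1 + Real.log q) ^ 2)) (by positivity)
      (H₂ N d q hN hd b hb K' hinv)
    rw [mul_assoc C₂, Real.sqrt_mul hC₂.le, ← div_div] at h1
    exact mono (div_le_div_of_nonneg_right e2 (Real.sqrt_nonneg _)) h1
  · intro k m hk hm K K' M hL hinv
    have hne : Nonempty ((j : Fin k) → Fin (m j)) := ⟨fun j => ⟨0, hm j⟩⟩
    have hfac : 0 < ∏ j : Fin k, (1 + Real.log (∏ i ∈ Finset.univ.filter (fun i => i < j), (m i : ℝ)) / m j) ^ 2 := by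
      refine Finset.prod_pos fun j _ => ?_
      have h1 : 0 ≤ Real.log (∏ i ∈ Finset.univ.filter (fun i => i < j), (m i : ℝ)) / m j := by
        refine div_nonneg (Real.log_nonneg ?_) (Nat.cast_nonneg _)
        refine Finset.prod_induction _ (fun x : ℝ => 1 ≤ x)
          (fun a b ha hb => one_le_mul_of_one_le_of_one_le ha hb) le_rfl fun i _ => ?_
        exact_mod_cast hm i
      positivity
    have h1 := base _ K K' M hL _ (mul_pos (pow_pos hC₃ (k ^ 2)) hfac) (H₃ k m hk hm K' hinv)
    exact mono (div_le_div_of_nonneg_right e0 (Real.sqrt_nonneg _)) h1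

end Pool.Agent.Results.MP_8d00da_gt.LargeSubsetsCheeger
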