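import Pool.Agent.Results.MP_6d896a_gt.Towers
import Pool.Agent.Results.MP_8d00da_gt.WithoutCentralSymmetry

/-!
# The KLS conjecture in Cheeger form for convex bodies over bodies which satisfy KLS

Q1 with an absolute constant (for every fixed `m`) for all convex bodies of the form
`K = {(t, x) : t ∈ D, x ∈ α(t) + g(t) B} ⊆ ℝ^m × ℝ^n`, `n` arbitrary, where `α` is affine, `g ≥ 0` is concave on the
convex set `D` and `B` satisfies the variance form of KLS, for example for the cones and double cones over `B`, joins of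
`B` with simplices, bodies of revolution. No symmetry of `K` is assumed. Sets of measure `1/2` (to which the infimum
in the Cheeger constant may be restricted by a known theorem), Minkowski boundary measure.

Method: the theorem of `MP_6d896a_gt.Towers` for the variance form, and `MP_8d00da_gt.WithoutCentralSymmetry` for
the passage to the Cheeger form.
-/

set_option autoImplicit false

namespace Pool.Agent.Results.MP_8d00da_gt.TowersCheeger

open MeasureTheory Set
open scoped ENNReal InnerProductSpace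
open Pool.Agent.Results.MP_6d896a_gt.Towers (IsTower pair)
open WithoutCentralSymmetry (ConvexBody KLSBoundHalf VarianceForm unif)

/-- **KLS (Cheeger form) for bodies over a body which satisfies KLS.** There is an absolute constant `c > 0` such
that the following holds for all convex bodies `K = {(t, x) : t ∈ D, x ∈ α(t) + g(t) B} ⊆ ℝ^ι × ℝ^ι'` (`IsTower`),
`m = |ι|`, `|ι'| ≥ 1`, over compact sets `B` with nonempty interior.
(1) If the points `(t, α(t))`, `t ∈ D`, lie in the affine subspace `p + V`, and `B` satisfies the variance form with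
the constant `k > 0`, then `K` satisfies the Cheeger form with the constant `c / √(k + dim V + m + 1)`.
(2) If `α` is affine and `B` satisfies the variance form with the constant `k > 0`, then `K` satisfies the Cheeger
form with the constant `c / √(k + m + 1)`.
(3) If `α` is affine and `B ⊆ ℝ^n` is contained in a bounded measurable convex set `B'`, invariant under the
permutations of the coordinates of `ℝ^n`, with `|B'| ≤ M |B|`, `M ≥ 1`, then `K` satisfies the Cheeger form with the
constant `c / √(M³ + m)`; with `B = B'` and `M = 1` these are all permutation invariant convex bodies. -/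
theorem result : ∃ c : ℝ, 0 < c ∧
    (∀ (ι ι' : Type) [Fintype ι] [Fintype ι'] [Nonempty ι'] (B : Set (EuclideanSpace ℝ ι'))
      (D : Set (EuclideanSpace ℝ ι)) (α : EuclideanSpace ℝ ι → EuclideanSpace ℝ ι')
      (g : EuclideanSpace ℝ ι → ℝ) (K : Set (EuclideanSpace ℝ (ι ⊕ ι'))), IsCompact B → (interior B).Nonempty →
      ConvexBody K → IsTower B D α g K → ∀ k : ℝ, 0 < k → VarianceForm k B →
      ∀ (V : Submodule ℝ (EuclideanSpace ℝ (ι ⊕ ι'))) (p : EuclideanSpace ℝ (ι ⊕ ι')),
      (∀ t ∈ D, pair t (α t) - p ∈ V) →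
      KLSBoundHalf (c / Real.sqrt (k + Module.finrank ℝ V + Fintype.card ι + 1)) K) ∧
    (∀ (ι ι' : Type) [Fintype ι] [Fintype ι'] [Nonempty ι'] (B : Set (EuclideanSpace ℝ ι'))
      (D : Set (EuclideanSpace ℝ ι)) (α : EuclideanSpace ℝ ι →ᵃ[ℝ] EuclideanSpace ℝ ι')
      (g : EuclideanSpace ℝ ι → ℝ) (K : Set (EuclideanSpace ℝ (ι ⊕ ι'))), IsCompact B → (interior B).Nonempty →
      ConvexBody K → IsTower B D α g K → ∀ k : ℝ, 0 < k → VarianceForm k B →
      KLSBoundHalf (c / Real.sqrt (k + Fintype.card ι + 1)) K) ∧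
    (∀ n : ℕ, 1 ≤ n → ∀ B B' : Set (EuclideanSpace ℝ (Fin n)), Convex ℝ B' →
      Bornology.IsBounded B' → MeasurableSet B' →
      (∀ σ : Equiv.Perm (Fin n), ∀ x y : EuclideanSpace ℝ (Fin n), (∀ i, y i = x (σ i)) → x ∈ B' → y ∈ B') →
      IsCompact B → (interior B).Nonempty → B ⊆ B' → ∀ M : ℝ, 1 ≤ M → volume B' ≤ ENNReal.ofReal M * volume B →
      ∀ (m : ℕ) (D : Set (EuclideanSpace ℝ (Fin m)))
        (α : EuclideanSpace ℝ (Fin m) →ᵃ[ℝ] EuclideanSpace ℝ (Fin n)) (g : EuclideanSpace ℝ (Fin m) → ℝ)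
        (K : Set (EuclideanSpace ℝ (Fin m ⊕ Fin n))), ConvexBody K → IsTower B D α g K →
      KLSBoundHalf (c / Real.sqrt (M ^ 3 + m)) K) := by
  obtain ⟨c₀, C₀, hc₀, -, H₀, -⟩ := WithoutCentralSymmetry.result
  obtain ⟨T1, T2, C, hC, T3⟩ := Pool.Agent.Results.MP_6d896a_gt.Towers.result
  have mono : ∀ {κ : Type} [Fintype κ] {K : Set (EuclideanSpace ℝ κ)} {c c' : ℝ}, c ≤ c' →
      KLSBoundHalf c' K → KLSBoundHalf c K := by
    intro κ _ K c c' hcc h t ht A hA hA2
    refine le_trans ?_ (h t ht A hA hA2)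
    gcongr
  -- the two variance forms
  have conv1 : ∀ {κ : Type} [Fintype κ] (B : Set (EuclideanSpace ℝ κ)) (_ : IsCompact B)
      (_ : (interior B).Nonempty) (k : ℝ), VarianceForm k B →
      Pool.Agent.Results.MP_6d896a_gt.LargeSubsets.KLS
        (Pool.Agent.Results.MP_6d896a_gt.LargeSubsets.unif B) k := by
    intro κ _ B hB hBi k h s hs hcov f hf hf1
    exact ⟨Pool.Agent.V11317.NC.memLp_lin B hB hBi _ rfl f hf.continuous, h s hs hcov f hf hf1⟩
  have conv2 : ∀ {κ : Type} [Fintype κ] (K : Set (EuclideanSpace ℝ κ)) (k : ℝ),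
      Pool.Agent.Results.MP_6d896a_gt.LargeSubsets.KLS
        (Pool.Agent.Results.MP_6d896a_gt.LargeSubsets.unif K) k → VarianceForm k K := by
    intro κ _ K k h s hs hcov f hf hf1
    exact (h s hs hcov f hf hf1).2
  -- comparison of the constants
  have comp : ∀ (x y L : ℝ), 0 < x → 0 < L → 0 < y → x ≤ L * y →
      c₀ / Real.sqrt L / Real.sqrt y ≤ c₀ / Real.sqrt x := by
    intro x y L hx hL hy hxy
    rw [div_div, ← Real.sqrt_mul hL.le]
    exact div_le_div_of_nonneg_left hc₀.le (Real.sqrt_pos.2 hx) (Real.sqrt_le_sqrt hxy)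
  obtain ⟨L, hLd⟩ : ∃ L : ℝ, L = max 3 C := ⟨_, rfl⟩
  have hL3 : 3 ≤ L := by rw [hLd]; exact le_max_left _ _
  have hLC : C ≤ L := by rw [hLd]; exact le_max_right _ _
  have hL0 : 0 < L := by linarith
  refine ⟨c₀ / Real.sqrt L, div_pos hc₀ (Real.sqrt_pos.2 hL0), ?_, ?_, ?_⟩
  · intro ι ι' _ _ _ B D α g K hB hBi hK hT k hk hv V p hV
    have h1 := conv2 K _ (T1 ι ι' B D α g K hB hBi hT k (conv1 B hB hBi k hv) V p hV)
    have hr : (0 : ℝ) ≤ Module.finrank ℝ V := by positivity
    have hm : (0 : ℝ) ≤ Fintype.card ι := by positivity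
    refine mono (comp _ _ L (by positivity) hL0 (by positivity) ?_) (H₀ _ K hK _ (by positivity) h1)
    have e1 : 3 * (k + Module.finrank ℝ V + Fintype.card ι + 1) ≤
        L * (k + Module.finrank ℝ V + Fintype.card ι + 1) := mul_le_mul_of_nonneg_right hL3 (by positivity)
    linarith
  · intro ι ι' _ _ _ B D α g K hB hBi hK hT k hk hv
    have h1 := conv2 K _ (T2 ι ι' B D α g K hB hBi hT k (conv1 B hB hBi k hv))
    have hm : (0 : ℝ) ≤ Fintype.card ι := by positivity
    refine mono (comp _ _ L (by positivity) hL0 (by positivity) ?_) (H₀ _ K hK _ (by positivity) h1)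
    have e1 : 3 * (k + Fintype.card ι + 1) ≤ L * (k + Fintype.card ι + 1) :=
      mul_le_mul_of_nonneg_right hL3 (by positivity)
    linarith
  · intro n hn B B' hconv hbd hmeas hinv hB hBi hsub M hM hvol m D α g K hK hT
    have h1 := conv2 K _ (T3 n hn B B' hconv hbd hmeas hinv hB hBi hsub M hM hvol m D α g K hT)
    have hM3 : (1 : ℝ) ≤ M ^ 3 := one_le_pow₀ hM
    have hM0 : 0 < M := by linarith
    have hm : (0 : ℝ) ≤ m := by positivity
    refine mono (comp _ _ L (by positivity) hL0 (by positivity) ?_) (H₀ _ K hK _ (by positivity) h1)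
    have e1 : C * M ^ 3 ≤ L * M ^ 3 := mul_le_mul_of_nonneg_right hLC (by positivity)
    have e2 : 3 * (m : ℝ) ≤ L * m := mul_le_mul_of_nonneg_right hL3 hm
    linarith

end Pool.Agent.Results.MP_8d00da_gt.TowersCheeger
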